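import Mathlib

/-!
Area of upward planar poly-line grid drawings of bipartite DAGs: the maximum over all
`n`-vertex graphs of the minimum area is at least a constant times `n ^ 2`.
-/

namespace Pool.Agent.Results.MP_9caa86_co.QuadraticArea

/-- A bipartite DAG with vertex set `Fin n`: the vertices are split into `V₁` and its complement
and every edge is directed from `V₁` to the complement of `V₁`. -/
structure BipartiteDAG (n : ℕ) where
  Adj : Fin n → Fin n → Prop
  V₁ : Set (Fin n)
  dir : ∀ u v, Adj u v → u ∈ V₁ ∧ v ∉ V₁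

/-- The point of the real plane given by a grid point. -/
def toPlane (p : ℤ × ℤ) : ℝ × ℝ := ((p.1 : ℝ), (p.2 : ℝ))

/-- The polygonal chain through a list of grid points, as a set of points of the plane. -/
def chainSet : List (ℤ × ℤ) → Set (ℝ × ℝ)
  | [] => ∅
  | [p] => {toPlane p}
  | p :: q :: l => segment ℝ (toPlane p) (toPlane q) ∪ chainSet (q :: l)

/-- A poly-line upward planar grid drawing of a bipartite DAG.  Every vertex is a grid point and
the edge `(u, v)` is the polygonal chain through the list `chain u v` of grid points, which starts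
at the point of `u`, ends at the point of `v` and has strictly increasing `y`-coordinates. -/
structure PolyDrawing {n : ℕ} (G : BipartiteDAG n) where
  pos : Fin n → ℤ × ℤ
  pos_inj : Function.Injective pos
  chain : Fin n → Fin n → List (ℤ × ℤ)
  head : ∀ u v, G.Adj u v → (chain u v).head? = some (pos u)
  last : ∀ u v, G.Adj u v → (chain u v).getLast? = some (pos v)
  upward : ∀ u v, G.Adj u v → (chain u v).Pairwise (fun p q => p.2 < q.2)
  noncrossing : ∀ u v u' v', G.Adj u v → G.Adj u' v' → (u, v) ≠ (u', v') →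
    ∀ z, z ∈ chainSet (chain u v) → z ∈ chainSet (chain u' v') →
      ∃ w, (w = u ∨ w = v) ∧ (w = u' ∨ w = v') ∧ z = toPlane (pos w)
  vertex_free : ∀ u v w, G.Adj u v → toPlane (pos w) ∈ chainSet (chain u v) → w = u ∨ w = v

/-- The drawing lies in the axis-parallel rectangle `[x₀, x₀ + W] × [y₀, y₀ + H]`. -/
def PolyDrawing.InBox {n : ℕ} {G : BipartiteDAG n} (D : PolyDrawing G)
    (x₀ y₀ : ℤ) (W H : ℕ) : Prop :=
  (∀ v, x₀ ≤ (D.pos v).1 ∧ (D.pos v).1 ≤ x₀ + W ∧ y₀ ≤ (D.pos v).2 ∧ (D.pos v).2 ≤ y₀ + H) ∧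
  (∀ u v, G.Adj u v → ∀ p ∈ D.chain u v,
    x₀ ≤ p.1 ∧ p.1 ≤ x₀ + W ∧ y₀ ≤ p.2 ∧ p.2 ≤ y₀ + H)

/-- The area of a drawing: the least `W * H` over all rectangles with integer corners, of
width `W` and height `H`, that contain the drawing. -/
noncomputable def PolyDrawing.area {n : ℕ} {G : BipartiteDAG n} (D : PolyDrawing G) : ℕ :=
  sInf {a | ∃ (x₀ y₀ : ℤ) (W H : ℕ), D.InBox x₀ y₀ W H ∧ a = W * H}

/-- The minimum area of a poly-line upward planar grid drawing of `G`. -/
noncomputable def minArea {n : ℕ} (G : BipartiteDAG n) : ℕ :=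
  sInf {a | ∃ D : PolyDrawing G, a = D.area}

/-- `Ap n`: the maximum, over all `n`-vertex bipartite DAGs that have a drawing, of the minimum
area of a poly-line upward planar grid drawing. -/
noncomputable def Ap (n : ℕ) : ℕ :=
  sSup {a | ∃ G : BipartiteDAG n, Nonempty (PolyDrawing G) ∧ a = minArea G}

/-! ### Polygonal chains as graphs of functions -/

/-- The abscissa of the chain at height `y`. -/
noncomputable def ev : List (ℤ × ℤ) → ℝ → ℝ
  | [], _ => 0
  | [p], _ => (p.1 : ℝ)
  | p :: q :: l, y =>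
      if y ≤ (q.2 : ℝ) then (p.1 : ℝ) + ((q.1 : ℝ) - p.1) * ((y - p.2) / ((q.2 : ℝ) - p.2))
      else ev (q :: l) y

theorem ev_head (p : ℤ × ℤ) (l : List (ℤ × ℤ))
    (h : (p :: l).Pairwise (fun p q => p.2 < q.2)) : ev (p :: l) (p.2 : ℝ) = p.1 := by
  cases l with
  | nil => simp [ev]
  | cons q l =>
    have hpq : p.2 < q.2 := by
      simp only [List.pairwise_cons] at h
      exact h.1 q (by simp)
    have : (p.2 : ℝ) ≤ q.2 := by exact_mod_cast hpq.le
    simp [ev, this]

theorem ev_continuous (l : List (ℤ × ℤ))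
    (h : l.Pairwise (fun p q => p.2 < q.2)) : Continuous (ev l) := by
  induction l with
  | nil => simpa [ev] using (continuous_const : Continuous fun _ : ℝ => (0 : ℝ))
  | cons p l ih =>
    cases l with
    | nil =>
      have : ev [p] = fun _ => (p.1 : ℝ) := by funext y; simp [ev]
      rw [this]; exact continuous_const
    | cons q l =>
      have h' := h
      simp only [List.pairwise_cons] at h
      have hpq : p.2 < q.2 := h.1 q (by simp)
      have hpq' : (p.2 : ℝ) < q.2 := by exact_mod_cast hpq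
      have hq := ev_head q l (by simp only [List.pairwise_cons]; exact h.2)
      have ih' := ih (by simp only [List.pairwise_cons]; exact h.2)
      have he : ev (p :: q :: l) = fun y => if y ≤ (q.2 : ℝ) then
          (p.1 : ℝ) + ((q.1 : ℝ) - p.1) * ((y - p.2) / ((q.2 : ℝ) - p.2))
          else ev (q :: l) y := by
        funext y; simp [ev]
      rw [he]
      refine Continuous.if_le ?_ ih' continuous_id continuous_const ?_
      · fun_prop
      · intro y hy
        have hy' : y = (q.2 : ℝ) := hy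
        rw [hy', hq]
        have : (q.2 : ℝ) - p.2 ≠ 0 := by linarith [sub_pos.mpr hpq']
        rw [div_self this]; ring

/-- every point `(ev l y, y)` with `y` in range is on the chain -/
theorem ev_mem (l : List (ℤ × ℤ)) (h : l.Pairwise (fun p q => p.2 < q.2))
    (a b : ℤ × ℤ) (ha : l.head? = some a) (hb : l.getLast? = some b) (y : ℝ)
    (h1 : (a.2 : ℝ) ≤ y) (h2 : y ≤ b.2) : (ev l y, y) ∈ chainSet l := by
  induction l generalizing a with
  | nil => simp at ha
  | cons p l ih =>
    cases l with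
    | nil =>
      simp at ha hb
      subst ha; subst hb
      have : y = p.2 := le_antisymm h2 h1
      simp [ev, chainSet, toPlane, this]
    | cons q l =>
      have h' := h
      simp only [List.pairwise_cons] at h
      have hpq : p.2 < q.2 := h.1 q (by simp)
      have hpq' : (p.2 : ℝ) < q.2 := by exact_mod_cast hpq
      have hpa : p = a := by simpa using ha
      subst hpa
      simp only [chainSet]
      by_cases hy : y ≤ (q.2 : ℝ)
      · left
        have hd : (0 : ℝ) < (q.2 : ℝ) - p.2 := by linarith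
        rw [segment_eq_image']
        refine ⟨(y - p.2) / ((q.2 : ℝ) - p.2), ⟨div_nonneg (by linarith) hd.le,
          (div_le_one hd).mpr (by linarith)⟩, ?_⟩
        simp only [ev, hy, if_true, toPlane]
        ext
        · simp; ring
        · simp; field_simp; ring
      · right
        have hb' : (q :: l).getLast? = some b := by simpa using hb
        have := ih (by simp only [List.pairwise_cons]; exact h.2) q (by simp) hb'
          (by push Not at hy; exact hy.le)
        have he : ev (p :: q :: l) y = ev (q :: l) y := by simp [ev, hy]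
        rw [he]; exact this

/-- chain points are on the graph -/
theorem ev_point (l : List (ℤ × ℤ)) (h : l.Pairwise (fun p q => p.2 < q.2))
    (p : ℤ × ℤ) (hp : p ∈ l) : ev l (p.2 : ℝ) = p.1 := by
  induction l with
  | nil => simp at hp
  | cons a l ih =>
    cases l with
    | nil =>
      simp at hp; subst hp; simp [ev]
    | cons q l =>
      have h' := h
      simp only [List.pairwise_cons] at h
      rcases List.mem_cons.mp hp with rfl | hp'
      · exact ev_head _ _ h'
      · have ih' := ih (by simp only [List.pairwise_cons]; exact h.2) hp'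
        have hq := ev_head q l (by simp only [List.pairwise_cons]; exact h.2)
        have haq : a.2 < q.2 := h.1 q (by simp)
        have haq' : (a.2 : ℝ) < q.2 := by exact_mod_cast haq
        rcases List.mem_cons.mp hp' with rfl | hp''
        · have : ((p.2 : ℝ) - a.2) ≠ 0 := by linarith [sub_pos.mpr haq']
          simp [ev, div_self this]
        · have hlt : q.2 < p.2 := h.2.1 p hp''
          have hlt' : (q.2 : ℝ) < p.2 := by exact_mod_cast hlt
          have : ¬ ((p.2 : ℝ) ≤ q.2) := not_le.mpr hlt'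
          simp only [ev, this, if_false]
          exact ih'

/-- at every height some chain point is at most as far to the right -/
theorem ev_ge (l : List (ℤ × ℤ)) (h : l.Pairwise (fun p q => p.2 < q.2))
    (a : ℤ × ℤ) (ha : l.head? = some a) (y : ℝ) (h1 : (a.2 : ℝ) ≤ y) :
    ∃ q ∈ l, (q.1 : ℝ) ≤ ev l y := by
  induction l generalizing a with
  | nil => simp at ha
  | cons p l ih =>
    cases l with
    | nil => exact ⟨p, by simp, by simp [ev]⟩
    | cons q l =>
      have h' := h
      simp only [List.pairwise_cons] at h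
      have hpq : p.2 < q.2 := h.1 q (by simp)
      have hpq' : (p.2 : ℝ) < q.2 := by exact_mod_cast hpq
      have hpa : p = a := by simpa using ha
      subst hpa
      by_cases hy : y ≤ (q.2 : ℝ)
      · have hd : (0 : ℝ) < (q.2 : ℝ) - p.2 := by linarith
        have ht0 : 0 ≤ (y - p.2) / ((q.2 : ℝ) - p.2) := div_nonneg (by linarith) hd.le
        have ht1 : (y - p.2) / ((q.2 : ℝ) - p.2) ≤ 1 := (div_le_one hd).mpr (by linarith)
        simp only [ev, hy, if_true]
        by_cases hc : (p.1 : ℝ) ≤ q.1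
        · exact ⟨p, by simp, by nlinarith⟩
        · exact ⟨q, by simp, by nlinarith⟩
      · push Not at hy
        obtain ⟨r, hr, hr'⟩ := ih (by simp only [List.pairwise_cons]; exact h.2) q (by simp) hy.le
        refine ⟨r, List.mem_cons_of_mem _ hr, ?_⟩
        have : ¬ (y ≤ (q.2 : ℝ)) := not_le.mpr hy
        simp only [ev, this, if_false]
        exact hr'

theorem le_last (l : List (ℤ × ℤ)) (h : l.Pairwise (fun p q => p.2 < q.2))
    (b : ℤ × ℤ) (hb : l.getLast? = some b) (p : ℤ × ℤ) (hp : p ∈ l) : p.2 ≤ b.2 := by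
  induction l with
  | nil => simp at hp
  | cons a l ih =>
    cases l with
    | nil => simp at hb hp; subst hb; subst hp; exact le_rfl
    | cons q l =>
      have hb' : (q :: l).getLast? = some b := by simpa using hb
      simp only [List.pairwise_cons] at h
      rcases List.mem_cons.mp hp with rfl | hp'
      · have hbm : b ∈ q :: l := List.mem_of_getLast? hb'
        exact (h.1 b hbm).le
      · exact ih (by simp only [List.pairwise_cons]; exact h.2) hb' hp'

theorem head_le (l : List (ℤ × ℤ)) (h : l.Pairwise (fun p q => p.2 < q.2))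
    (a : ℤ × ℤ) (ha : l.head? = some a) (p : ℤ × ℤ) (hp : p ∈ l) : a.2 ≤ p.2 := by
  cases l with
  | nil => simp at hp
  | cons q l =>
    have hqa : q = a := by simpa using ha
    subst hqa
    simp only [List.pairwise_cons] at h
    rcases List.mem_cons.mp hp with rfl | hp'
    · exact le_rfl
    · exact (h.1 p hp').le

/-! ### Basic facts about a drawing -/

section drawing

variable {n : ℕ} {G : BipartiteDAG n} (D : PolyDrawing G)

noncomputable def PolyDrawing.X (v : Fin n) : ℝ := ((D.pos v).1 : ℝ)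
noncomputable def PolyDrawing.Y (v : Fin n) : ℝ := ((D.pos v).2 : ℝ)
noncomputable def PolyDrawing.F (u v : Fin n) (y : ℝ) : ℝ := ev (D.chain u v) y

theorem chain_ne {u v : Fin n} (h : G.Adj u v) : u ≠ v := by
  rintro rfl
  obtain ⟨h1, h2⟩ := G.dir _ _ h
  exact h2 h1

theorem F_bot {u v : Fin n} (h : G.Adj u v) : D.F u v (D.Y u) = D.X u := by
  have h1 := D.head u v h
  have hm : D.pos u ∈ D.chain u v := List.mem_of_head? h1
  exact ev_point _ (D.upward u v h) _ hm

theorem F_top {u v : Fin n} (h : G.Adj u v) : D.F u v (D.Y v) = D.X v := by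
  have h1 := D.last u v h
  have hm : D.pos v ∈ D.chain u v := List.mem_of_getLast? h1
  exact ev_point _ (D.upward u v h) _ hm

theorem F_mem {u v : Fin n} (h : G.Adj u v) (y : ℝ) (h1 : D.Y u ≤ y) (h2 : y ≤ D.Y v) :
    (D.F u v y, y) ∈ chainSet (D.chain u v) :=
  ev_mem _ (D.upward u v h) _ _ (D.head u v h) (D.last u v h) y h1 h2

theorem Y_lt {u v : Fin n} (h : G.Adj u v) : D.Y u < D.Y v := by
  have h1 := D.head u v h
  have h2 := D.last u v h
  have h3 := D.upward u v h
  have hm : D.pos v ∈ D.chain u v := List.mem_of_getLast? h2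
  have hne : D.pos u ≠ D.pos v := fun he => chain_ne h (D.pos_inj he)
  rcases hc : D.chain u v with _ | ⟨q, l⟩
  · rw [hc] at hm; simp at hm
  · rw [hc] at h1 hm h3
    have hq : q = D.pos u := by simpa using h1
    rcases List.mem_cons.mp hm with h4 | h4
    · exact absurd (h4.trans hq).symm hne
    · simp only [List.pairwise_cons] at h3
      have := h3.1 _ h4
      rw [hq] at this
      unfold PolyDrawing.Y
      exact_mod_cast this

theorem F_continuous {u v : Fin n} (h : G.Adj u v) : Continuous (D.F u v) :=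
  ev_continuous _ (D.upward u v h)

/-- vertex-disjoint edges never meet -/
theorem F_ne {u v u' v' : Fin n} (h : G.Adj u v) (h' : G.Adj u' v')
    (h1 : u ≠ u') (h2 : v ≠ v') (y : ℝ)
    (a : D.Y u ≤ y) (b : y ≤ D.Y v) (a' : D.Y u' ≤ y) (b' : y ≤ D.Y v') :
    D.F u v y ≠ D.F u' v' y := by
  intro he
  have m1 := F_mem D h y a b
  have m2 := F_mem D h' y a' b'
  rw [← he] at m2
  obtain ⟨w, hw1, hw2, -⟩ := D.noncrossing u v u' v' h h' (by simp [h1]) _ m1 m2
  have d1 := G.dir _ _ h
  have d2 := G.dir _ _ h'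
  rcases hw1 with rfl | rfl <;> rcases hw2 with rfl | rfl
  · exact h1 rfl
  · exact d2.2 d1.1
  · exact d1.2 d2.1
  · exact h2 rfl

/-- the left-right order of vertex-disjoint edges is constant -/
theorem F_order {u v u' v' : Fin n} (h : G.Adj u v) (h' : G.Adj u' v')
    (h1 : u ≠ u') (h2 : v ≠ v') (y z : ℝ)
    (a : D.Y u ≤ y) (b : y ≤ D.Y v) (a' : D.Y u' ≤ y) (b' : y ≤ D.Y v')
    (c : D.Y u ≤ z) (d : z ≤ D.Y v) (c' : D.Y u' ≤ z) (d' : z ≤ D.Y v')
    (hlt : D.F u v y < D.F u' v' y) : D.F u v z < D.F u' v' z := by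
  by_contra hcon
  push Not at hcon
  have hcont : ContinuousOn (fun t => D.F u v t - D.F u' v' t) (Set.uIcc y z) :=
    ((F_continuous D h).sub (F_continuous D h')).continuousOn
  have := intermediate_value_uIcc hcont
  have h0 : (0 : ℝ) ∈ Set.uIcc (D.F u v y - D.F u' v' y) (D.F u v z - D.F u' v' z) := by
    rw [Set.mem_uIcc]; left; constructor <;> linarith
  obtain ⟨t, ht, ht'⟩ := this h0
  rw [Set.mem_uIcc] at ht
  have : D.F u v t = D.F u' v' t := by
    have : D.F u v t - D.F u' v' t = 0 := ht'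
    linarith
  refine F_ne D h h' h1 h2 t ?_ ?_ ?_ ?_ this <;> rcases ht with ht | ht <;> linarith [ht.1, ht.2]

/-! ### Parity of the number of edges to the left -/

open Classical in
/-- `1` if the edge `(u, t)` meets the horizontal line at height `y` strictly to the left of `x` -/
noncomputable def PolyDrawing.ind (u t : Fin n) (x y : ℝ) : ZMod 2 :=
  if D.Y u ≤ y ∧ y < D.Y t ∧ D.F u t y < x then 1 else 0

open Classical in
noncomputable def PolyDrawing.kap (a w z : Fin n) (y₁ y₂ : ℝ) : ZMod 2 :=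
  if y₁ < D.Y a ∧ D.Y a ≤ y₂ ∧ D.X a < D.F w z (D.Y a) then 1 else 0

theorem ind_move {u t w z : Fin n} (h : G.Adj u t) (h' : G.Adj w z)
    (h1 : u ≠ w) (h2 : t ≠ z) (y₁ y₂ : ℝ) (h3 : D.Y w ≤ y₁) (h4 : y₁ ≤ y₂) (h5 : y₂ ≤ D.Y z) :
    D.ind u t (D.F w z y₂) y₂ + D.ind u t (D.F w z y₁) y₁
      = D.kap u w z y₁ y₂ + D.kap t w z y₁ y₂ := by
  have hlt := Y_lt D h
  have hb := F_bot D h
  have ht := F_top D h
  -- order transfer
  have tr : ∀ y y' : ℝ, D.Y u ≤ y → y ≤ D.Y t → D.Y w ≤ y → y ≤ D.Y z →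
      D.Y u ≤ y' → y' ≤ D.Y t → D.Y w ≤ y' → y' ≤ D.Y z →
      (D.F u t y < D.F w z y ↔ D.F u t y' < D.F w z y') := by
    intro y y' a1 a2 a3 a4 b1 b2 b3 b4
    exact ⟨F_order D h h' h1 h2 y y' a1 a2 a3 a4 b1 b2 b3 b4,
      F_order D h h' h1 h2 y' y b1 b2 b3 b4 a1 a2 a3 a4⟩
  have two : (1 : ZMod 2) + 1 = 0 := by decide
  unfold PolyDrawing.ind PolyDrawing.kap
  by_cases c1 : D.Y u ≤ y₁
  · by_cases c2 : y₁ < D.Y t
    · by_cases c3 : y₂ < D.Y t
      · have e := tr y₁ y₂ c1 c2.le h3 (by linarith) (by linarith) c3.le (by linarith) h5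
        have n1 : ¬ (y₁ < D.Y u) := not_lt.mpr c1
        have n2 : ¬ (D.Y t ≤ y₂) := not_le.mpr c3
        by_cases c4 : D.F u t y₁ < D.F w z y₁
        · have c5 := e.mp c4
          have : D.Y u ≤ y₂ := by linarith
          simp [c1, c2, c3, c4, c5, n1, n2, this, two]
        · have c5 : ¬ (D.F u t y₂ < D.F w z y₂) := fun h => c4 (e.mpr h)
          simp [c4, c5, n1, n2]
      · push Not at c3
        have e := tr y₁ (D.Y t) c1 c2.le h3 (by linarith) hlt.le le_rfl (by linarith) (by linarith)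
        rw [ht] at e
        have n1 : ¬ (y₁ < D.Y u) := not_lt.mpr c1
        have n2 : ¬ (y₂ < D.Y t) := not_lt.mpr c3
        simp [c1, c2, c3, n1, n2, e]
    · push Not at c2
      have n1 : ¬ (y₁ < D.Y t) := not_lt.mpr c2
      have n2 : ¬ (y₂ < D.Y t) := not_lt.mpr (by linarith)
      have n3 : ¬ (y₁ < D.Y u) := not_lt.mpr c1
      simp [n1, n2, n3]
  · push Not at c1
    have n0 : ¬ (D.Y u ≤ y₁) := not_le.mpr c1
    have c1t : y₁ < D.Y t := by linarith
    by_cases c2 : D.Y u ≤ y₂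
    · by_cases c3 : y₂ < D.Y t
      · have e := tr y₂ (D.Y u) c2 c3.le (by linarith) h5 le_rfl hlt.le (by linarith) (by linarith)
        rw [hb] at e
        have n2 : ¬ (D.Y t ≤ y₂) := not_le.mpr c3
        simp [c1, c2, c3, n0, n2, e]
      · push Not at c3
        have e := tr (D.Y t) (D.Y u) hlt.le le_rfl (by linarith) (by linarith) le_rfl hlt.le
          (by linarith) (by linarith)
        rw [hb, ht] at e
        have n2 : ¬ (y₂ < D.Y t) := not_lt.mpr c3
        by_cases c4 : D.X u < D.F w z (D.Y u)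
        · have c5 := e.mpr c4
          simp [c1, c2, c3, c4, c5, n0, n2, c1t, two]
        · have c5 : ¬ (D.X t < D.F w z (D.Y t)) := fun h => c4 (e.mp h)
          simp [c4, c5, n0, n2]
    · push Not at c2
      have n2 : ¬ (D.Y u ≤ y₂) := not_le.mpr c2
      have n3 : ¬ (D.Y t ≤ y₂) := not_le.mpr (by linarith)
      simp [n0, n2, n3]

/-- parity of the number of edges of the 4-cycle `u, s, v, t` to the left of `(x, y)` -/
noncomputable def PolyDrawing.par (u v s t : Fin n) (x y : ℝ) : ZMod 2 :=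
  D.ind u s x y + D.ind v s x y + D.ind u t x y + D.ind v t x y

theorem par_move {u v s t w z : Fin n} (us : G.Adj u s) (vs : G.Adj v s) (ut : G.Adj u t)
    (vt : G.Adj v t) (wz : G.Adj w z) (hu : u ≠ w) (hv : v ≠ w) (hs : s ≠ z) (ht : t ≠ z)
    (y₁ y₂ : ℝ) (h3 : D.Y w ≤ y₁) (h3' : y₁ ≤ D.Y z) (h5 : D.Y w ≤ y₂) (h5' : y₂ ≤ D.Y z) :
    D.par u v s t (D.F w z y₁) y₁ = D.par u v s t (D.F w z y₂) y₂ := by
  have key : ∀ y₁ y₂ : ℝ, D.Y w ≤ y₁ → y₁ ≤ y₂ → y₂ ≤ D.Y z →
      D.par u v s t (D.F w z y₁) y₁ = D.par u v s t (D.F w z y₂) y₂ := by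
    intro y₁ y₂ h3 h4 h5
    have e1 := ind_move D us wz hu hs y₁ y₂ h3 h4 h5
    have e2 := ind_move D vs wz hv hs y₁ y₂ h3 h4 h5
    have e3 := ind_move D ut wz hu ht y₁ y₂ h3 h4 h5
    have e4 := ind_move D vt wz hv ht y₁ y₂ h3 h4 h5
    unfold PolyDrawing.par
    generalize D.ind u s (D.F w z y₂) y₂ = a1 at *
    generalize D.ind v s (D.F w z y₂) y₂ = a2 at *
    generalize D.ind u t (D.F w z y₂) y₂ = a3 at *
    generalize D.ind v t (D.F w z y₂) y₂ = a4 at *
    generalize D.ind u s (D.F w z y₁) y₁ = b1 at *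
    generalize D.ind v s (D.F w z y₁) y₁ = b2 at *
    generalize D.ind u t (D.F w z y₁) y₁ = b3 at *
    generalize D.ind v t (D.F w z y₁) y₁ = b4 at *
    generalize D.kap u w z y₁ y₂ = k1 at *
    generalize D.kap v w z y₁ y₂ = k2 at *
    generalize D.kap s w z y₁ y₂ = k3 at *
    generalize D.kap t w z y₁ y₂ = k4 at *
    revert a1 a2 a3 a4 b1 b2 b3 b4 k1 k2 k3 k4
    decide
  rcases le_total y₁ y₂ with h | h
  · exact key _ _ h3 h h5'
  · exact (key _ _ h5 h h3').symm

open Classical in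
theorem pair_aux {u v s t : Fin n} (us : G.Adj u s) (vs : G.Adj v s) (ut : G.Adj u t)
    (vt : G.Adj v t) (huv : u ≠ v) (hst : s ≠ t) (hY : D.Y u ≤ D.Y v) (hle : D.Y s ≤ D.Y t) :
    D.ind u t (D.X s) (D.Y s) + D.ind v t (D.X s) (D.Y s)
      + (D.ind u s (D.X t) (D.Y t) + D.ind v s (D.X t) (D.Y t))
      = if (D.F u s (D.Y v) < D.X v ↔ D.F u t (D.Y v) < D.X v) then 1 else 0 := by
  have l1 := Y_lt D us
  have l2 := Y_lt D vs
  have l3 := Y_lt D ut
  have l4 := Y_lt D vt
  -- order of (u,t) and (v,s)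
  have o1 : D.F u t (D.Y s) < D.X s ↔ D.F u t (D.Y v) < D.X v := by
    rw [← F_top D vs, ← F_bot D vs]
    exact ⟨F_order D ut vs huv hst.symm _ _ l1.le hle l2.le le_rfl hY l4.le le_rfl l2.le,
      F_order D ut vs huv hst.symm _ _ hY l4.le le_rfl l2.le l1.le hle l2.le le_rfl⟩
  have o2 : D.F v t (D.Y s) < D.X s ↔ D.X v < D.F u s (D.Y v) := by
    have e : D.X v = D.F v t (D.Y v) := (F_bot D vt).symm
    rw [← F_top D us, e]
    exact ⟨F_order D vt us huv.symm hst.symm _ _ l2.le hle l1.le le_rfl le_rfl l4.le hY l2.le,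
      F_order D vt us huv.symm hst.symm _ _ le_rfl l4.le hY l2.le l2.le hle l1.le le_rfl⟩
  have o3 : D.F u s (D.Y v) ≠ D.X v := by
    rw [← F_bot D vt]
    exact F_ne D us vt huv hst _ hY l2.le le_rfl l4.le
  have z1 : D.ind u s (D.X t) (D.Y t) = 0 := by
    have : ¬ (D.Y t < D.Y s) := not_lt.mpr hle
    simp [PolyDrawing.ind, this]
  have z2 : D.ind v s (D.X t) (D.Y t) = 0 := by
    have : ¬ (D.Y t < D.Y s) := not_lt.mpr hle
    simp [PolyDrawing.ind, this]
  rw [z1, z2]
  rcases lt_or_eq_of_le hle with hlt | heq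
  · have q1 : D.Y u ≤ D.Y s := l1.le
    have q2 : D.Y v ≤ D.Y s := l2.le
    unfold PolyDrawing.ind
    rcases lt_or_gt_of_ne o3 with g | g
    · have g' : ¬ (D.X v < D.F u s (D.Y v)) := not_lt.mpr g.le
      by_cases c : D.F u t (D.Y v) < D.X v
      · simp [o1, o2, q1, q2, hlt, g, g', c]
      · simp [o1, o2, g, g', c]
    · have g' : ¬ (D.F u s (D.Y v) < D.X v) := not_lt.mpr g.le
      by_cases c : D.F u t (D.Y v) < D.X v
      · simp [o1, o2, q1, q2, hlt, g, g', c]
        decide
      · simp [o1, o2, q2, hlt, g, g', c]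
  · have z3 : D.ind u t (D.X s) (D.Y s) = 0 := by
      simp [PolyDrawing.ind, heq]
    have z4 : D.ind v t (D.X s) (D.Y s) = 0 := by
      simp [PolyDrawing.ind, heq]
    rw [z3, z4]
    rw [heq, F_top D ut] at o1
    rw [heq, F_top D vt] at o2
    rcases lt_or_gt_of_ne o3 with g | g
    · have g' : ¬ (D.X v < D.F u s (D.Y v)) := not_lt.mpr g.le
      have c : ¬ (D.F u t (D.Y v) < D.X v) := fun h => g' (o2.mp (o1.mpr h))
      simp [g, c]
    · have g' : ¬ (D.F u s (D.Y v) < D.X v) := not_lt.mpr g.le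
      have c : (D.F u t (D.Y v) < D.X v) := o1.mp (o2.mpr g)
      simp [g', c]

open Classical in
theorem pair {u v s t : Fin n} (us : G.Adj u s) (vs : G.Adj v s) (ut : G.Adj u t)
    (vt : G.Adj v t) (huv : u ≠ v) (hst : s ≠ t) (hY : D.Y u ≤ D.Y v) :
    D.ind u t (D.X s) (D.Y s) + D.ind v t (D.X s) (D.Y s)
      + (D.ind u s (D.X t) (D.Y t) + D.ind v s (D.X t) (D.Y t))
      = if (D.F u s (D.Y v) < D.X v ↔ D.F u t (D.Y v) < D.X v) then 1 else 0 := by
  rcases le_total (D.Y s) (D.Y t) with h | h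
  · exact pair_aux D us vs ut vt huv hst hY h
  · have := pair_aux D ut vt us vs huv hst.symm hY h
    rw [add_comm, this]
    congr 1
    exact propext iff_comm

theorem theta_aux {u v r s t : Fin n} (ur : G.Adj u r) (vr : G.Adj v r) (us : G.Adj u s)
    (vs : G.Adj v s) (ut : G.Adj u t) (vt : G.Adj v t) (huv : u ≠ v)
    (hrs : r ≠ s) (hrt : r ≠ t) (hst : s ≠ t) (hY : D.Y u ≤ D.Y v) :
    D.par u v s t (D.X r) (D.Y r) + D.par u v r t (D.X s) (D.Y s)
      + D.par u v r s (D.X t) (D.Y t) = 1 := by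
  have p1 := pair D ur vr us vs huv hrs hY
  have p2 := pair D ur vr ut vt huv hrt hY
  have p3 := pair D us vs ut vt huv hst hY
  have e : D.par u v s t (D.X r) (D.Y r) + D.par u v r t (D.X s) (D.Y s)
      + D.par u v r s (D.X t) (D.Y t) =
      (D.ind u s (D.X r) (D.Y r) + D.ind v s (D.X r) (D.Y r)
      + (D.ind u r (D.X s) (D.Y s) + D.ind v r (D.X s) (D.Y s)))
      + (D.ind u t (D.X r) (D.Y r) + D.ind v t (D.X r) (D.Y r)
      + (D.ind u r (D.X t) (D.Y t) + D.ind v r (D.X t) (D.Y t)))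
      + (D.ind u t (D.X s) (D.Y s) + D.ind v t (D.X s) (D.Y s)
      + (D.ind u s (D.X t) (D.Y t) + D.ind v s (D.X t) (D.Y t))) := by
    unfold PolyDrawing.par; ring
  rw [e, p1, p2, p3]
  by_cases a : D.F u r (D.Y v) < D.X v <;> by_cases b : D.F u s (D.Y v) < D.X v <;>
    by_cases c : D.F u t (D.Y v) < D.X v <;> simp [a, b, c] <;> decide

theorem par_comm (u v s t : Fin n) (x y : ℝ) : D.par u v s t x y = D.par v u s t x y := by
  unfold PolyDrawing.par; ring

theorem theta {u v r s t : Fin n} (ur : G.Adj u r) (vr : G.Adj v r) (us : G.Adj u s)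
    (vs : G.Adj v s) (ut : G.Adj u t) (vt : G.Adj v t) (huv : u ≠ v)
    (hrs : r ≠ s) (hrt : r ≠ t) (hst : s ≠ t) :
    D.par u v s t (D.X r) (D.Y r) + D.par u v r t (D.X s) (D.Y s)
      + D.par u v r s (D.X t) (D.Y t) = 1 := by
  rcases le_total (D.Y u) (D.Y v) with h | h
  · exact theta_aux D ur vr us vs ut vt huv hrs hrt hst h
  · have := theta_aux D vr ur vs us vt ut huv.symm hrs hrt hst h
    rw [par_comm D v u, par_comm D v u, par_comm D v u] at this
    exact this

/-- a common out-neighbour of `u, v` and a common in-neighbour of `s, t` lie on different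
sides of the 4-cycle `u, s, v, t` -/
theorem separate {u v s t x w : Fin n} (us : G.Adj u s) (vs : G.Adj v s) (ut : G.Adj u t)
    (vt : G.Adj v t) (ux : G.Adj u x) (vx : G.Adj v x) (ws : G.Adj w s) (wt : G.Adj w t)
    (huv : u ≠ v) (hst : s ≠ t) (hxs : x ≠ s) (hxt : x ≠ t) (hwu : w ≠ u) (hwv : w ≠ v) :
    D.par u v s t (D.X w) (D.Y w) + D.par u v s t (D.X x) (D.Y x) = 1 := by
  have th := theta D ux vx us vs ut vt huv hxs hxt hst
  have m1 := par_move D ux vx us vs wt hwu.symm hwv.symm hxt hst (D.Y w) (D.Y t)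
    le_rfl (Y_lt D wt).le (Y_lt D wt).le le_rfl
  have m2 := par_move D ux vx ut vt ws hwu.symm hwv.symm hxs hst.symm (D.Y w) (D.Y s)
    le_rfl (Y_lt D ws).le (Y_lt D ws).le le_rfl
  rw [F_bot D wt, F_top D wt] at m1
  rw [F_bot D ws, F_top D ws] at m2
  have e : D.par u v s t (D.X w) (D.Y w) =
      D.par u v x s (D.X w) (D.Y w) + D.par u v x t (D.X w) (D.Y w) := by
    unfold PolyDrawing.par
    generalize D.ind u s (D.X w) (D.Y w) = a1
    generalize D.ind v s (D.X w) (D.Y w) = a2
    generalize D.ind u t (D.X w) (D.Y w) = a3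
    generalize D.ind v t (D.X w) (D.Y w) = a4
    generalize D.ind u x (D.X w) (D.Y w) = a5
    generalize D.ind v x (D.X w) (D.Y w) = a6
    revert a1 a2 a3 a4 a5 a6
    decide
  rw [e, m1, m2, ← th]
  ring

/-- a point inside a 4-cycle has an edge of the cycle to its left -/
theorem exists_left {u v s t : Fin n} {x y : ℝ} (h : D.par u v s t x y = 1) :
    ∃ a b, (a = u ∨ a = v) ∧ (b = s ∨ b = t) ∧ D.Y a ≤ y ∧ y < D.Y b ∧ D.F a b y < x := by
  by_contra hcon
  push Not at hcon
  have z : ∀ a b, (a = u ∨ a = v) → (b = s ∨ b = t) → D.ind a b x y = 0 := by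
    intro a b ha hb
    unfold PolyDrawing.ind
    rw [if_neg]
    rintro ⟨h1, h2, h3⟩
    exact absurd h3 (not_lt.mpr (hcon a b ha hb h1 h2))
  unfold PolyDrawing.par at h
  rw [z u s (Or.inl rfl) (Or.inl rfl), z v s (Or.inr rfl) (Or.inl rfl),
    z u t (Or.inl rfl) (Or.inr rfl), z v t (Or.inr rfl) (Or.inr rfl)] at h
  revert h
  decide

end drawing

/-! ### The graphs -/

/-- Vertex `v` lies in layer `v / 4`; the residues `0, 1` modulo `4` are the sources of the layer
and the residues `2, 3` are its sinks.  All edges from the sources of a layer to the sinks of the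
same layer and of the layer before. -/
def Gr (n : ℕ) : BipartiteDAG n where
  Adj u v := u.val % 4 < 2 ∧ 2 ≤ v.val % 4 ∧ (u.val / 4 = v.val / 4 ∨ u.val / 4 = v.val / 4 + 1)
  V₁ := {u | u.val % 4 < 2}
  dir := by
    intro u v h
    refine ⟨h.1, ?_⟩
    intro hv
    have hv' : v.val % 4 < 2 := hv
    omega

section lower

variable {n : ℕ} (D : PolyDrawing (Gr n))

def va (i : ℕ) (h : 4 * i + 3 < n) : Fin n := ⟨4 * i, by omega⟩
def vb (i : ℕ) (h : 4 * i + 3 < n) : Fin n := ⟨4 * i + 1, by omega⟩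
def vc (i : ℕ) (h : 4 * i + 3 < n) : Fin n := ⟨4 * i + 2, by omega⟩
def vd (i : ℕ) (h : 4 * i + 3 < n) : Fin n := ⟨4 * i + 3, by omega⟩

theorem adj_iff (u v : Fin n) : (Gr n).Adj u v ↔
    (u.val % 4 < 2 ∧ 2 ≤ v.val % 4 ∧ (u.val / 4 = v.val / 4 ∨ u.val / 4 = v.val / 4 + 1)) :=
  Iff.rfl

/-- parity with respect to the 4-cycle of layer `i` -/
noncomputable def lp (i : ℕ) (h : 4 * i + 3 < n) (x y : ℝ) : ZMod 2 :=
  D.par (va i h) (vb i h) (vc i h) (vd i h) x y

theorem lp_move (i : ℕ) (h : 4 * i + 3 < n) (w z : Fin n) (wz : (Gr n).Adj w z)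
    (hw : w.val / 4 ≠ i) (hz : z.val / 4 ≠ i) (y : ℝ) (h1 : D.Y w ≤ y) (h2 : y ≤ D.Y z) :
    lp D i h (D.F w z y) y = lp D i h (D.X w) (D.Y w) := by
  have e := par_move D (u := va i h) (v := vb i h) (s := vc i h) (t := vd i h) (w := w) (z := z)
    (by rw [adj_iff]; simp only [va, vc]; omega) (by rw [adj_iff]; simp only [vb, vc]; omega)
    (by rw [adj_iff]; simp only [va, vd]; omega) (by rw [adj_iff]; simp only [vb, vd]; omega)
    wz (by rintro rfl; apply hw; simp only [va]; omega)
    (by rintro rfl; apply hw; simp only [vb]; omega)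
    (by rintro rfl; apply hz; simp only [vc]; omega)
    (by rintro rfl; apply hz; simp only [vd]; omega)
    y (D.Y w) h1 h2 le_rfl (Y_lt D wz).le
  rw [F_bot D wz] at e
  exact e

theorem lp_edge (i : ℕ) (h : 4 * i + 3 < n) (w z : Fin n) (wz : (Gr n).Adj w z)
    (hw : w.val / 4 ≠ i) (hz : z.val / 4 ≠ i) :
    lp D i h (D.X z) (D.Y z) = lp D i h (D.X w) (D.Y w) := by
  have := lp_move D i h w z wz hw hz (D.Y z) (Y_lt D wz).le le_rfl
  rwa [F_top D wz] at this

/-- all vertices of a complete layer `j ≠ i` are on the same side of layer `i` -/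
theorem lp_layer (i : ℕ) (h : 4 * i + 3 < n) (j : ℕ) (hj : 4 * j + 3 < n) (hij : j ≠ i)
    (v : Fin n) (hv : v.val / 4 = j) :
    lp D i h (D.X v) (D.Y v) = lp D i h (D.X (va j hj)) (D.Y (va j hj)) := by
  have hja : (va j hj).val / 4 ≠ i := by simp only [va]; omega
  have hjc : (vc j hj).val / 4 ≠ i := by simp only [vc]; omega
  by_cases c : v.val % 4 < 2
  · have e1 := lp_edge D i h v (vc j hj) (by rw [adj_iff]; simp only [vc]; omega) (by omega) hjc
    have e2 := lp_edge D i h (va j hj) (vc j hj) (by rw [adj_iff]; simp only [va, vc]; omega)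
      hja hjc
    rw [← e1, e2]
  · exact lp_edge D i h (va j hj) v (by rw [adj_iff]; simp only [va]; omega) hja (by omega)

theorem lp_succ (i : ℕ) (h : 4 * i + 3 < n) (j : ℕ) (hj : 4 * j + 3 < n)
    (hj' : 4 * (j + 1) + 3 < n) (hij : j ≠ i) (hij' : j + 1 ≠ i) :
    lp D i h (D.X (va (j + 1) hj')) (D.Y (va (j + 1) hj')) =
      lp D i h (D.X (va j hj)) (D.Y (va j hj)) := by
  have e1 := lp_edge D i h (va (j + 1) hj') (vc j hj) (by rw [adj_iff]; simp only [va, vc]; omega)
    (by simp only [va]; omega) (by simp only [vc]; omega)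
  have e2 := lp_layer D i h j hj hij (vc j hj) (by simp only [vc]; omega)
  rw [← e1, e2]

theorem lp_up (i : ℕ) (h : 4 * i + 3 < n) (h1 : 4 * (i + 1) + 3 < n) (m : ℕ)
    (hm : 4 * (i + 1 + m) + 3 < n) :
    lp D i h (D.X (va (i + 1 + m) hm)) (D.Y (va (i + 1 + m) hm)) =
      lp D i h (D.X (va (i + 1) h1)) (D.Y (va (i + 1) h1)) := by
  induction m with
  | zero => rfl
  | succ m ih =>
    have hm' : 4 * (i + 1 + m) + 3 < n := by omega
    rw [← ih hm']
    exact lp_succ D i h (i + 1 + m) hm' hm (by omega) (by omega)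

theorem lp_down (i : ℕ) (h : 4 * i + 3 < n) (m j : ℕ) (hj : 4 * j + 3 < n)
    (hjm : 4 * (j + m) + 3 < n) (hi : j + m < i) :
    lp D i h (D.X (va (j + m) hjm)) (D.Y (va (j + m) hjm)) =
      lp D i h (D.X (va j hj)) (D.Y (va j hj)) := by
  induction m with
  | zero => rfl
  | succ m ih =>
    have hm' : 4 * (j + m) + 3 < n := by omega
    rw [← ih hm' (by omega)]
    exact lp_succ D i h (j + m) hm' hjm (by omega) (by omega)

/-- the layers before `i` and the layers after `i` are on different sides of layer `i` -/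
theorem lp_sep (i : ℕ) (h : 4 * (i + 1) + 3 < n) (h0 : 4 * i + 3 < n)
    (h1 : 4 * (i + 1 + 1) + 3 < n) :
    lp D (i + 1) h (D.X (va (i + 1 + 1) h1)) (D.Y (va (i + 1 + 1) h1)) +
      lp D (i + 1) h (D.X (va i h0)) (D.Y (va i h0)) = 1 := by
  have e1 := lp_layer D (i + 1) h i h0 (by omega) (vc i h0) (by simp only [vc]; omega)
  rw [← e1]
  unfold lp
  apply separate D (u := va (i + 1) h) (v := vb (i + 1) h) (s := vc (i + 1) h)
    (t := vd (i + 1) h) (x := vc i h0) (w := va (i + 1 + 1) h1)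
  · rw [adj_iff]; simp only [va, vc]; omega
  · rw [adj_iff]; simp only [vb, vc]; omega
  · rw [adj_iff]; simp only [va, vd]; omega
  · rw [adj_iff]; simp only [vb, vd]; omega
  · rw [adj_iff]; simp only [va, vc]; omega
  · rw [adj_iff]; simp only [vb, vc]; omega
  · rw [adj_iff]; simp only [va, vc]; omega
  · rw [adj_iff]; simp only [va, vd]; omega
  · intro e; have := congrArg Fin.val e; simp only [va, vb] at this; omega
  · intro e; have := congrArg Fin.val e; simp only [vc, vd] at this; omega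
  · intro e; have := congrArg Fin.val e; simp only [vc] at this; omega
  · intro e; have := congrArg Fin.val e; simp only [vc, vd] at this; omega
  · intro e; have := congrArg Fin.val e; simp only [va] at this; omega
  · intro e; have := congrArg Fin.val e; simp only [va, vb] at this; omega

/-- abscissas of the corners of the edges inside layer `i` -/
def SX (i : ℕ) : Set ℤ :=
  {x | ∃ w z : Fin n, (Gr n).Adj w z ∧ w.val / 4 = i ∧ z.val / 4 = i ∧
    ∃ p ∈ D.chain w z, p.1 = x}

/-- minus the ordinates of the corners of the edges inside layer `i` -/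
def SY (i : ℕ) : Set ℤ :=
  {x | ∃ w z : Fin n, (Gr n).Adj w z ∧ w.val / 4 = i ∧ z.val / 4 = i ∧
    ∃ p ∈ D.chain w z, -p.2 = x}

theorem nested (i : ℕ) (h : 4 * i + 3 < n) (j : ℕ) (hj : 4 * j + 3 < n) (hij : j ≠ i)
    (hin : lp D i h (D.X (va j hj)) (D.Y (va j hj)) = 1) :
    (∀ x ∈ SX D j, ∃ y ∈ SX D i, y < x) ∧ (∀ x ∈ SY D j, ∃ y ∈ SY D i, y < x) := by
  have main : ∀ w z : Fin n, (Gr n).Adj w z → w.val / 4 = j → z.val / 4 = j →
      ∀ p ∈ D.chain w z, ∃ a b : Fin n, (Gr n).Adj a b ∧ a.val / 4 = i ∧ b.val / 4 = i ∧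
        D.Y a ≤ (p.2 : ℝ) ∧ (p.2 : ℝ) < D.Y b ∧ D.F a b (p.2 : ℝ) < p.1 := by
    intro w z wz hw hz p hp
    have b1 : D.Y w ≤ (p.2 : ℝ) := by
      have := head_le _ (D.upward w z wz) _ (D.head w z wz) p hp
      unfold PolyDrawing.Y; exact_mod_cast this
    have b2 : (p.2 : ℝ) ≤ D.Y z := by
      have := le_last _ (D.upward w z wz) _ (D.last w z wz) p hp
      unfold PolyDrawing.Y; exact_mod_cast this
    have e := lp_move D i h w z wz (by omega) (by omega) (p.2 : ℝ) b1 b2
    rw [lp_layer D i h j hj hij w hw, hin] at e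
    have ep : D.F w z (p.2 : ℝ) = p.1 := ev_point _ (D.upward w z wz) p hp
    rw [ep] at e
    obtain ⟨a, b, ha, hb, q1, q2, q3⟩ := exists_left D e
    refine ⟨a, b, ?_, ?_, ?_, q1, q2, q3⟩
    · rw [adj_iff]
      rcases ha with rfl | rfl <;> rcases hb with rfl | rfl <;>
        simp only [va, vb, vc, vd] <;> omega
    · rcases ha with rfl | rfl <;> simp only [va, vb] <;> omega
    · rcases hb with rfl | rfl <;> simp only [vc, vd] <;> omega
  constructor
  · rintro x ⟨w, z, wz, hw, hz, p, hp, rfl⟩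
    obtain ⟨a, b, ab, ha, hb, q1, q2, q3⟩ := main w z wz hw hz p hp
    obtain ⟨q, hq, hq'⟩ := ev_ge _ (D.upward a b ab) _ (D.head a b ab) (p.2 : ℝ) q1
    refine ⟨q.1, ⟨a, b, ab, ha, hb, q, hq, rfl⟩, ?_⟩
    have : (q.1 : ℝ) < p.1 := lt_of_le_of_lt hq' q3
    exact_mod_cast this
  · rintro x ⟨w, z, wz, hw, hz, p, hp, rfl⟩
    obtain ⟨a, b, ab, ha, hb, q1, q2, q3⟩ := main w z wz hw hz p hp
    refine ⟨-(D.pos b).2, ⟨a, b, ab, ha, hb, D.pos b,
      List.mem_of_getLast? (D.last a b ab), rfl⟩, ?_⟩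
    have : (p.2 : ℝ) < (D.pos b).2 := q2
    have : p.2 < (D.pos b).2 := by exact_mod_cast this
    omega

theorem card_le_of_desc (J : Finset ℕ) (S : ℕ → Set ℤ) (x₀ : ℤ) (W : ℕ)
    (hne : ∀ i ∈ J, (S i).Nonempty) (hbox : ∀ i ∈ J, ∀ x ∈ S i, x₀ ≤ x ∧ x ≤ x₀ + W)
    (hR : ∀ i ∈ J, ∀ j ∈ J, i ≠ j →
      (∀ x ∈ S i, ∃ y ∈ S j, y < x) ∨ (∀ x ∈ S j, ∃ y ∈ S i, y < x)) :
    J.card ≤ W + 1 := by
  have hmem : ∀ i ∈ J, sInf (S i) ∈ S i := fun i hi =>
    Int.csInf_mem (hne i hi) ⟨x₀, fun x hx => (hbox i hi x hx).1⟩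
  have hinj : Set.InjOn (fun i => sInf (S i)) (J : Set ℕ) := by
    intro i hi j hj hij
    by_contra hne'
    have hle : ∀ k ∈ J, ∀ x ∈ S k, sInf (S k) ≤ x := fun k hk x hx =>
      csInf_le ⟨x₀, fun x hx => (hbox k hk x hx).1⟩ hx
    simp only at hij
    rcases hR i hi j hj hne' with h | h
    · obtain ⟨y, hy, hy'⟩ := h _ (hmem i hi)
      have := hle j hj y hy
      omega
    · obtain ⟨y, hy, hy'⟩ := h _ (hmem j hj)
      have := hle i hi y hy
      omega
  have hmap : Set.MapsTo (fun i => sInf (S i)) (J : Set ℕ)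
      (Finset.Icc x₀ (x₀ + W) : Finset ℤ) := by
    intro i hi
    simp only [Finset.coe_Icc, Set.mem_Icc]
    exact hbox i hi _ (hmem i hi)
  have := Finset.card_le_card_of_injOn _ hmap hinj
  rw [Int.card_Icc] at this
  omega

def Low (i : ℕ) : Prop :=
  ∃ (h : 4 * (i + 1) + 3 < n) (h0 : 4 * i + 3 < n),
    lp D (i + 1) h (D.X (va i h0)) (D.Y (va i h0)) = 1

def Up (i : ℕ) : Prop :=
  ∃ (h : 4 * (i + 1) + 3 < n) (h1 : 4 * (i + 1 + 1) + 3 < n),
    lp D (i + 1) h (D.X (va (i + 1 + 1) h1)) (D.Y (va (i + 1 + 1) h1)) = 1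

theorem low_or_up (i : ℕ) (hi : i + 2 < n / 4) : Low D i ∨ Up D i := by
  have h : 4 * (i + 1) + 3 < n := by omega
  have h0 : 4 * i + 3 < n := by omega
  have h1 : 4 * (i + 1 + 1) + 3 < n := by omega
  have e := lp_sep D i h h0 h1
  have key : ∀ a b : ZMod 2, a + b = 1 → b = 1 ∨ a = 1 := by decide
  rcases key _ _ e with q | q
  · exact Or.inl ⟨h, h0, q⟩
  · exact Or.inr ⟨h, h1, q⟩

theorem low_nested (i j : ℕ) (hij : i < j) (hj : Low D j) :
    (∀ x ∈ SX D (i + 1), ∃ y ∈ SX D (j + 1), y < x) ∧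
    (∀ x ∈ SY D (i + 1), ∃ y ∈ SY D (j + 1), y < x) := by
  obtain ⟨h, h0, e⟩ := hj
  obtain ⟨m, rfl⟩ : ∃ m, j = (i + 1) + m := ⟨j - (i + 1), by omega⟩
  have hi : 4 * (i + 1) + 3 < n := by omega
  have e2 := lp_down D (i + 1 + m + 1) h m (i + 1) hi h0 (by omega)
  rw [e] at e2
  exact nested D _ h (i + 1) hi (by omega) e2.symm

theorem up_nested (i j : ℕ) (hij : i < j) (hj : 4 * (j + 1) + 3 < n) (hi : Up D i) :
    (∀ x ∈ SX D (j + 1), ∃ y ∈ SX D (i + 1), y < x) ∧
    (∀ x ∈ SY D (j + 1), ∃ y ∈ SY D (i + 1), y < x) := by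
  obtain ⟨h, h1, e⟩ := hi
  obtain ⟨m, rfl⟩ : ∃ m, j = i + 1 + m := ⟨j - (i + 1), by omega⟩
  have hm : 4 * (i + 1 + 1 + m) + 3 < n := by omega
  have e2 := lp_up D (i + 1) h h1 m hm
  rw [e] at e2
  have he : i + 1 + m + 1 = i + 1 + 1 + m := by omega
  rw [he]
  exact nested D _ h (i + 1 + 1 + m) hm (by omega) e2

theorem layer_edge (i : ℕ) (h : 4 * i + 3 < n) : ∃ w z : Fin n, (Gr n).Adj w z ∧
    w.val / 4 = i ∧ z.val / 4 = i := by
  refine ⟨va i h, vc i h, ?_, ?_, ?_⟩
  · rw [adj_iff]; simp only [va, vc]; omega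
  · simp only [va]; omega
  · simp only [vc]; omega

theorem SX_nonempty (i : ℕ) (h : 4 * i + 3 < n) : (SX D i).Nonempty := by
  obtain ⟨w, z, wz, hw, hz⟩ := layer_edge i h
  exact ⟨_, w, z, wz, hw, hz, D.pos w, List.mem_of_head? (D.head w z wz), rfl⟩

theorem SY_nonempty (i : ℕ) (h : 4 * i + 3 < n) : (SY D i).Nonempty := by
  obtain ⟨w, z, wz, hw, hz⟩ := layer_edge i h
  exact ⟨_, w, z, wz, hw, hz, D.pos w, List.mem_of_head? (D.head w z wz), rfl⟩

theorem box_bound (x₀ y₀ : ℤ) (W H : ℕ) (hB : D.InBox x₀ y₀ W H) :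
    n / 4 ≤ 2 * W + 4 ∧ n / 4 ≤ 2 * H + 4 := by
  classical
  set I := Finset.range (n / 4 - 2) with hI
  set JL := I.filter (fun i => Low D i) with hJL
  set JU := I.filter (fun i => Up D i) with hJU
  have hI2 : ∀ i ∈ I, 4 * (i + 1 + 1) + 3 < n := by
    intro i hi
    rw [hI, Finset.mem_range] at hi
    omega
  have hcover : I ⊆ JL ∪ JU := by
    intro i hi
    have hi2 : i + 2 < n / 4 := by rw [hI, Finset.mem_range] at hi; omega
    rw [Finset.mem_union, hJL, hJU, Finset.mem_filter, Finset.mem_filter]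
    rcases low_or_up D i hi2 with q | q
    · exact Or.inl ⟨hi, q⟩
    · exact Or.inr ⟨hi, q⟩
  have hcard : n / 4 - 2 ≤ JL.card + JU.card := by
    calc n / 4 - 2 = I.card := by rw [hI, Finset.card_range]
      _ ≤ (JL ∪ JU).card := Finset.card_le_card hcover
      _ ≤ _ := Finset.card_union_le _ _
  have hSX : ∀ i, ∀ x ∈ SX D (i + 1), x₀ ≤ x ∧ x ≤ x₀ + W := by
    rintro i x ⟨w, z, wz, -, -, p, hp, rfl⟩
    have := hB.2 w z wz p hp
    exact ⟨this.1, this.2.1⟩
  have hSY : ∀ i, ∀ x ∈ SY D (i + 1), -(y₀ + H) ≤ x ∧ x ≤ -(y₀ + H) + H := by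
    rintro i x ⟨w, z, wz, -, -, p, hp, rfl⟩
    have := hB.2 w z wz p hp
    constructor <;> omega
  have L1 : JL.card ≤ W + 1 := by
    apply card_le_of_desc JL (fun i => SX D (i + 1)) x₀ W
    · intro i hi
      have := hI2 i (Finset.mem_filter.mp hi).1
      exact SX_nonempty D _ (by omega)
    · intro i _; exact hSX i
    · intro i hi j hj hne
      rcases lt_or_gt_of_ne hne with q | q
      · exact Or.inl (low_nested D i j q (Finset.mem_filter.mp hj).2).1
      · exact Or.inr (low_nested D j i q (Finset.mem_filter.mp hi).2).1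
  have L2 : JL.card ≤ H + 1 := by
    apply card_le_of_desc JL (fun i => SY D (i + 1)) (-(y₀ + H)) H
    · intro i hi
      have := hI2 i (Finset.mem_filter.mp hi).1
      exact SY_nonempty D _ (by omega)
    · intro i _; exact hSY i
    · intro i hi j hj hne
      rcases lt_or_gt_of_ne hne with q | q
      · exact Or.inl (low_nested D i j q (Finset.mem_filter.mp hj).2).2
      · exact Or.inr (low_nested D j i q (Finset.mem_filter.mp hi).2).2
  have U1 : JU.card ≤ W + 1 := by
    apply card_le_of_desc JU (fun i => SX D (i + 1)) x₀ W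
    · intro i hi
      have := hI2 i (Finset.mem_filter.mp hi).1
      exact SX_nonempty D _ (by omega)
    · intro i _; exact hSX i
    · intro i hi j hj hne
      have hi3 := hI2 i (Finset.mem_filter.mp hi).1
      have hj3 := hI2 j (Finset.mem_filter.mp hj).1
      rcases lt_or_gt_of_ne hne with q | q
      · exact Or.inr (up_nested D i j q (by omega) (Finset.mem_filter.mp hi).2).1
      · exact Or.inl (up_nested D j i q (by omega) (Finset.mem_filter.mp hj).2).1
  have U2 : JU.card ≤ H + 1 := by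
    apply card_le_of_desc JU (fun i => SY D (i + 1)) (-(y₀ + H)) H
    · intro i hi
      have := hI2 i (Finset.mem_filter.mp hi).1
      exact SY_nonempty D _ (by omega)
    · intro i _; exact hSY i
    · intro i hi j hj hne
      have hi3 := hI2 i (Finset.mem_filter.mp hi).1
      have hj3 := hI2 j (Finset.mem_filter.mp hj).1
      rcases lt_or_gt_of_ne hne with q | q
      · exact Or.inr (up_nested D i j q (by omega) (Finset.mem_filter.mp hi).2).2
      · exact Or.inl (up_nested D j i q (by omega) (Finset.mem_filter.mp hj).2).2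
  omega

end lower

/-! ### The drawing of `Gr n` -/

def sx (v : ℕ) : ℤ := if v % 4 = 0 then -1 else 1
def ty (v : ℕ) : ℤ := if v % 4 = 2 then 1 else -1
def ly (v : ℕ) : ℕ := v / 4

def gpos (v : ℕ) : ℤ × ℤ :=
  if v % 4 < 2 then (sx v * ((ly v : ℤ) + 2), -((ly v : ℤ) + 2))
  else (0, ty v * ((ly v : ℤ) + 1))

theorem gpos_inj : Function.Injective gpos := by
  intro v w h
  unfold gpos sx ty ly at h
  split_ifs at h <;> simp only [Prod.mk.injEq] at h <;> omega

theorem gpos_src (u : ℕ) (hu : u % 4 < 2) :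
    gpos u = (sx u * ((ly u : ℤ) + 2), -((ly u : ℤ) + 2)) := by simp [gpos, hu]

theorem gpos_snk (v : ℕ) (hv : 2 ≤ v % 4) : gpos v = (0, ty v * ((ly v : ℤ) + 1)) := by
  have hv' : ¬ (v % 4 < 2) := by omega
  simp [gpos, hv']

/-- points on the segment of an edge -/
theorem seg_edge (u v : ℕ) (hu : u % 4 < 2) (hv : 2 ≤ v % 4) (z : ℝ × ℝ)
    (hz : z ∈ chainSet [gpos u, gpos v]) : ∃ l : ℝ, 0 ≤ l ∧ l ≤ 1 ∧
      z.1 = sx u * ((1 - l) * ((ly u : ℝ) + 2)) ∧
      z.2 = -((1 - l) * ((ly u : ℝ) + 2)) + ty v * (l * ((ly v : ℝ) + 1)) := by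
  have gu := gpos_src u hu
  have gv := gpos_snk v hv
  simp only [chainSet] at hz
  rcases hz with hz | hz
  · rw [segment_eq_image] at hz
    obtain ⟨l, ⟨l0, l1⟩, rfl⟩ := hz
    refine ⟨l, l0, l1, ?_, ?_⟩
    · rw [gu, gv]; simp [toPlane]; ring
    · rw [gu, gv]; simp [toPlane]; ring
  · refine ⟨1, zero_le_one, le_rfl, ?_, ?_⟩
    · have : z = toPlane (gpos v) := hz
      rw [this, gv]; simp [toPlane]
    · have : z = toPlane (gpos v) := hz
      rw [this, gv]; simp [toPlane]

theorem toPlane_inj : Function.Injective toPlane := by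
  rintro ⟨a, b⟩ ⟨c, d⟩ h
  simp only [toPlane, Prod.mk.injEq, Int.cast_inj] at h
  exact Prod.ext h.1 h.2

theorem sx_cases (v : ℕ) : sx v = -1 ∨ sx v = 1 := by unfold sx; split_ifs <;> simp
theorem ty_cases (v : ℕ) : ty v = -1 ∨ ty v = 1 := by unfold ty; split_ifs <;> simp

theorem toPlane_src (u : ℕ) (hu : u % 4 < 2) :
    toPlane (gpos u) = ((sx u : ℝ) * ((ly u : ℝ) + 2), -((ly u : ℝ) + 2)) := by
  rw [gpos_src u hu]; simp [toPlane]

theorem toPlane_snk (v : ℕ) (hv : 2 ≤ v % 4) :
    toPlane (gpos v) = (0, (ty v : ℝ) * ((ly v : ℝ) + 1)) := by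
  rw [gpos_snk v hv]; simp [toPlane]

theorem no_cross (u v u' v' : ℕ) (hu : u % 4 < 2) (hv : 2 ≤ v % 4) (hu' : u' % 4 < 2)
    (hv' : 2 ≤ v' % 4) (a : u / 4 = v / 4 ∨ u / 4 = v / 4 + 1)
    (a' : u' / 4 = v' / 4 ∨ u' / 4 = v' / 4 + 1) (hne : ¬ (u = u' ∧ v = v')) (z : ℝ × ℝ)
    (hz : z ∈ chainSet [gpos u, gpos v]) (hz' : z ∈ chainSet [gpos u', gpos v']) :
    (u = u' ∧ z = toPlane (gpos u)) ∨ (v = v' ∧ z = toPlane (gpos v)) := by
  obtain ⟨l, l0, l1, e1, e2⟩ := seg_edge u v hu hv z hz
  obtain ⟨m, m0, m1, f1, f2⟩ := seg_edge u' v' hu' hv' z hz'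
  have iu : (0 : ℝ) ≤ (ly u : ℝ) := Nat.cast_nonneg _
  have iv : (0 : ℝ) ≤ (ly v : ℝ) := Nat.cast_nonneg _
  have iu' : (0 : ℝ) ≤ (ly u' : ℝ) := Nat.cast_nonneg _
  have iv' : (0 : ℝ) ≤ (ly v' : ℝ) := Nat.cast_nonneg _
  -- helper: the endpoint cases
  have topcase : l = 1 → m = 1 → (v = v' ∧ z = toPlane (gpos v)) := by
    intro hl hm
    subst hl; subst hm
    have z1 : z = toPlane (gpos v) := by
      rw [toPlane_snk v hv]; ext
      · rw [e1]; simp
      · rw [e2]; simp
    have z2 : z = toPlane (gpos v') := by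
      rw [toPlane_snk v' hv']; ext
      · rw [f1]; simp
      · rw [f2]; simp
    exact ⟨gpos_inj (toPlane_inj (z1.symm.trans z2)), z1⟩
  have botcase : l = 0 → m = 0 → (u = u' ∧ z = toPlane (gpos u)) := by
    intro hl hm
    subst hl; subst hm
    have z1 : z = toPlane (gpos u) := by
      rw [toPlane_src u hu]; ext
      · rw [e1]; simp
      · rw [e2]; simp
    have z2 : z = toPlane (gpos u') := by
      rw [toPlane_src u' hu']; ext
      · rw [f1]; simp
      · rw [f2]; simp
    exact ⟨gpos_inj (toPlane_inj (z1.symm.trans z2)), z1⟩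
  set A := (1 - l) * ((ly u : ℝ) + 2) with hA
  set B := l * ((ly v : ℝ) + 1) with hB
  set A' := (1 - m) * ((ly u' : ℝ) + 2) with hA'
  set B' := m * ((ly v' : ℝ) + 1) with hB'
  have A0 : 0 ≤ A := mul_nonneg (by linarith) (by linarith)
  have B0 : 0 ≤ B := mul_nonneg l0 (by linarith)
  have A0' : 0 ≤ A' := mul_nonneg (by linarith) (by linarith)
  have B0' : 0 ≤ B' := mul_nonneg m0 (by linarith)
  have lz : A = 0 → l = 1 := by
    intro h
    rcases mul_eq_zero.mp h with h | h
    · linarith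
    · exfalso; linarith
  have mz : A' = 0 → m = 1 := by
    intro h
    rcases mul_eq_zero.mp h with h | h
    · linarith
    · exfalso; linarith
  have lo : B = 0 → l = 0 := by
    intro h
    rcases mul_eq_zero.mp h with h | h
    · exact h
    · exfalso; linarith
  have mo : B' = 0 → m = 0 := by
    intro h
    rcases mul_eq_zero.mp h with h | h
    · exact h
    · exfalso; linarith
  have hs : (sx u : ℝ) * A = sx u' * A' := by rw [← e1, ← f1]
  have ht : -A + ty v * B = -A' + ty v' * B' := by rw [← e2, ← f2]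
  by_cases hsx : sx u = sx u'
  · have hAA : A = A' := by
      rw [hsx] at hs
      rcases sx_cases u' with h | h <;> rw [h] at hs <;> push_cast at hs <;> linarith
    by_cases hty : ty v = ty v'
    · have hBB : B = B' := by
        rw [hty] at ht
        rcases ty_cases v' with h | h <;> rw [h] at ht <;> push_cast at ht <;> linarith
      -- same wedge
      have hu4 : u % 4 = u' % 4 := by
        unfold sx at hsx; split_ifs at hsx <;> omega
      have hv4 : v % 4 = v' % 4 := by
        unfold ty at hty; split_ifs at hty <;> omega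
      have hcmp : (ly u ≤ ly u' ∧ ly v ≤ ly v') ∨ (ly u' ≤ ly u ∧ ly v' ≤ ly v) := by
        unfold ly; omega
      have hlm : l = m := by
        rcases hcmp with ⟨c1, c2⟩ | ⟨c1, c2⟩
        · have c1' : (ly u : ℝ) ≤ ly u' := by exact_mod_cast c1
          have c2' : (ly v : ℝ) ≤ ly v' := by exact_mod_cast c2
          apply le_antisymm
          · by_contra hc
            push Not at hc
            have : A < A' := by rw [hA, hA']; nlinarith
            linarith
          · by_contra hc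
            push Not at hc
            have : B < B' := by rw [hB, hB']; nlinarith
            linarith
        · have c1' : (ly u' : ℝ) ≤ ly u := by exact_mod_cast c1
          have c2' : (ly v' : ℝ) ≤ ly v := by exact_mod_cast c2
          apply le_antisymm
          · by_contra hc
            push Not at hc
            have : B' < B := by rw [hB, hB']; nlinarith
            linarith
          · by_contra hc
            push Not at hc
            have : A' < A := by rw [hA, hA']; nlinarith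
            linarith
      by_cases hl0 : l = 0
      · exact Or.inl (botcase hl0 (by rw [← hlm, hl0]))
      · by_cases hl1 : l = 1
        · exact Or.inr (topcase hl1 (by rw [← hlm, hl1]))
        · exfalso
          apply hne
          have g1 : (ly v : ℝ) = ly v' := by
            have : l * ((ly v : ℝ) + 1) = l * ((ly v' : ℝ) + 1) := by
              rw [← hB, hBB, hB', hlm]
            have := mul_left_cancel₀ hl0 this
            linarith
          have g2 : (ly u : ℝ) = ly u' := by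
            have h1l : (1 - l) ≠ 0 := fun h => hl1 (by linarith)
            have : (1 - l) * ((ly u : ℝ) + 2) = (1 - l) * ((ly u' : ℝ) + 2) := by
              rw [← hA, hAA, hA', hlm]
            have := mul_left_cancel₀ h1l this
            linarith
          have g1' : ly v = ly v' := by exact_mod_cast g1
          have g2' : ly u = ly u' := by exact_mod_cast g2
          unfold ly at g1' g2'
          omega
    · -- opposite vertical sides: both bottoms
      have hBB : B = 0 ∧ B' = 0 := by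
        rcases ty_cases v with h | h <;> rcases ty_cases v' with h' | h' <;>
          rw [h, h'] at ht hty <;> push_cast at ht <;>
          first
            | exact absurd rfl hty
            | (constructor <;> linarith)
      exact Or.inl (botcase (lo hBB.1) (mo hBB.2))
  · have hAA : A = 0 ∧ A' = 0 := by
      rcases sx_cases u with h | h <;> rcases sx_cases u' with h' | h' <;>
        rw [h, h'] at hs hsx <;> push_cast at hs <;>
        first
          | exact absurd rfl hsx
          | (constructor <;> linarith)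
    exact Or.inr (topcase (lz hAA.1) (mz hAA.2))

theorem no_vertex (u v w : ℕ) (hu : u % 4 < 2) (hv : 2 ≤ v % 4)
    (hz : toPlane (gpos w) ∈ chainSet [gpos u, gpos v]) : w = u ∨ w = v := by
  obtain ⟨l, l0, l1, e1, e2⟩ := seg_edge u v hu hv _ hz
  have iu : (0 : ℝ) ≤ (ly u : ℝ) := Nat.cast_nonneg _
  have iv : (0 : ℝ) ≤ (ly v : ℝ) := Nat.cast_nonneg _
  have iw : (0 : ℝ) ≤ (ly w : ℝ) := Nat.cast_nonneg _
  have A0 : 0 ≤ (1 - l) * ((ly u : ℝ) + 2) := mul_nonneg (by linarith) (by linarith)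
  have B0 : 0 ≤ l * ((ly v : ℝ) + 1) := mul_nonneg l0 (by linarith)
  by_cases hw : w % 4 < 2
  · left
    have ew := toPlane_src w hw
    rw [ew] at e1 e2
    simp only at e1 e2
    have hB : l * ((ly v : ℝ) + 1) = 0 := by
      rcases sx_cases w with h | h <;> rcases sx_cases u with h' | h' <;>
        rcases ty_cases v with h'' | h'' <;> rw [h, h'] at e1 <;> rw [h''] at e2 <;>
        push_cast at e1 e2 <;> nlinarith
    have hl : l = 0 := by
      rcases mul_eq_zero.mp hB with h | h
      · exact h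
      · exfalso; linarith
    apply gpos_inj
    apply toPlane_inj
    rw [ew, toPlane_src u hu]
    subst hl
    ext
    · simp only; rw [e1]; ring
    · simp only; rw [e2]; ring
  · right
    have hw' : 2 ≤ w % 4 := by omega
    have ew := toPlane_snk w hw'
    rw [ew] at e1 e2
    simp only at e1 e2
    have hA : (1 - l) * ((ly u : ℝ) + 2) = 0 := by
      rcases sx_cases u with h' | h' <;> rw [h'] at e1 <;> push_cast at e1 <;> linarith
    have hl : l = 1 := by
      rcases mul_eq_zero.mp hA with h | h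
      · linarith
      · exfalso; linarith
    apply gpos_inj
    apply toPlane_inj
    rw [ew, toPlane_snk v hv]
    subst hl
    ext
    · rfl
    · simp only; rw [e2]; ring

/-- the straight-line drawing of `Gr n` -/
def grDrawing (n : ℕ) : PolyDrawing (Gr n) where
  pos v := gpos v.val
  pos_inj := fun a b h => Fin.ext (gpos_inj h)
  chain u v := [gpos u.val, gpos v.val]
  head := by intro u v _; rfl
  last := by intro u v _; rfl
  upward := by
    intro u v h
    rw [adj_iff] at h
    simp only [List.pairwise_cons, List.mem_cons, List.not_mem_nil, or_false, forall_eq,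
      List.Pairwise.nil, and_true, false_imp_iff, implies_true]
    rw [gpos_src _ h.1, gpos_snk _ h.2.1]
    simp only
    have h3 := h.2.2
    rcases ty_cases v.val with e | e <;> rw [e] <;> unfold ly <;> omega
  noncrossing := by
    intro u v u' v' h h' hne z hz hz'
    rw [adj_iff] at h h'
    rcases no_cross u.val v.val u'.val v'.val h.1 h.2.1 h'.1 h'.2.1 h.2.2 h'.2.2
      (by
        rintro ⟨e1, e2⟩
        exact hne (by rw [Fin.ext e1, Fin.ext e2])) z hz hz' with ⟨e, e'⟩ | ⟨e, e'⟩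
    · exact ⟨u, Or.inl rfl, Or.inl (Fin.ext e), e'⟩
    · exact ⟨v, Or.inr rfl, Or.inr (Fin.ext e), e'⟩
  vertex_free := by
    intro u v w h hz
    rw [adj_iff] at h
    rcases no_vertex u.val v.val w.val h.1 h.2.1 hz with e | e
    · exact Or.inl (Fin.ext e)
    · exact Or.inr (Fin.ext e)

/-! ### Conclusion -/

theorem exists_box {n : ℕ} {G : BipartiteDAG n} (D : PolyDrawing G) :
    ∃ (x₀ y₀ : ℤ) (W H : ℕ), D.InBox x₀ y₀ W H := by
  classical
  set P : Finset (ℤ × ℤ) := (Finset.univ.image D.pos) ∪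
    (Finset.univ.biUnion fun u : Fin n => Finset.univ.biUnion fun v : Fin n =>
      (D.chain u v).toFinset) with hP
  set M : ℕ := P.sup (fun p => p.1.natAbs + p.2.natAbs) with hM
  have key : ∀ p ∈ P, p.1.natAbs + p.2.natAbs ≤ M := fun p hp =>
    Finset.le_sup (f := fun p : ℤ × ℤ => p.1.natAbs + p.2.natAbs) hp
  refine ⟨-M, -M, 2 * M, 2 * M, ?_, ?_⟩
  · intro v
    have : D.pos v ∈ P := by
      rw [hP, Finset.mem_union]; left; exact Finset.mem_image_of_mem _ (Finset.mem_univ v)
    have := key _ this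
    push_cast
    omega
  · intro u v _ p hp
    have : p ∈ P := by
      rw [hP, Finset.mem_union]; right
      simp only [Finset.mem_biUnion, Finset.mem_univ, true_and, List.mem_toFinset]
      exact ⟨u, v, hp⟩
    have := key _ this
    push_cast
    omega

theorem area_bound (n : ℕ) (hn : 100 ≤ n) (D : PolyDrawing (Gr n)) :
    (n : ℝ) ^ 2 / 400 ≤ (D.area : ℝ) := by
  have hne : {a | ∃ (x₀ y₀ : ℤ) (W H : ℕ), D.InBox x₀ y₀ W H ∧ a = W * H}.Nonempty := by
    obtain ⟨x₀, y₀, W, H, h⟩ := exists_box D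
    exact ⟨W * H, x₀, y₀, W, H, h, rfl⟩
  obtain ⟨x₀, y₀, W, H, hB, he⟩ := Nat.sInf_mem hne
  have he' : D.area = W * H := he
  rw [he']
  obtain ⟨h1, h2⟩ := box_bound D x₀ y₀ W H hB
  have w1 : n ≤ 20 * W := by omega
  have w2 : n ≤ 20 * H := by omega
  have w1' : (n : ℝ) ≤ 20 * W := by exact_mod_cast w1
  have w2' : (n : ℝ) ≤ 20 * H := by exact_mod_cast w2
  have n0 : (0 : ℝ) ≤ n := Nat.cast_nonneg _
  push_cast
  nlinarith

instance (n : ℕ) : Finite (BipartiteDAG n) := by
  apply Finite.of_injective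
    (fun G : BipartiteDAG n => ((G.Adj, G.V₁) : (Fin n → Fin n → Prop) × Set (Fin n)))
  rintro ⟨A, V, h⟩ ⟨A', V', h'⟩ e
  simp only [Prod.mk.injEq] at e
  obtain ⟨rfl, rfl⟩ := e
  rfl

theorem bddAbove_set (n : ℕ) :
    BddAbove {a | ∃ G : BipartiteDAG n, Nonempty (PolyDrawing G) ∧ a = minArea G} := by
  apply Set.Finite.bddAbove
  apply Set.Finite.subset (Set.finite_range (fun G : BipartiteDAG n => minArea G))
  rintro a ⟨G, -, rfl⟩
  exact ⟨G, rfl⟩

/-- The maximum over `n`-vertex bipartite DAGs of the minimum area of a poly-line upward planar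
grid drawing grows at least quadratically. -/
theorem result : ∃ c : ℝ, 0 < c ∧ ∃ N : ℕ, ∀ n : ℕ, N ≤ n → c * (n : ℝ) ^ 2 ≤ (Ap n : ℝ) := by
  refine ⟨1 / 400, by norm_num, 100, fun n hn => ?_⟩
  have h1 : minArea (Gr n) ≤ Ap n :=
    le_csSup (bddAbove_set n) ⟨Gr n, ⟨grDrawing n⟩, rfl⟩
  have h2 : (n : ℝ) ^ 2 / 400 ≤ (minArea (Gr n) : ℝ) := by
    have hne : {a | ∃ D : PolyDrawing (Gr n), a = D.area}.Nonempty :=
      ⟨_, grDrawing n, rfl⟩
    obtain ⟨D, hD⟩ := Nat.sInf_mem hne
    have hD' : minArea (Gr n) = D.area := hD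
    rw [hD']
    exact area_bound n hn D
  have h3 : (minArea (Gr n) : ℝ) ≤ (Ap n : ℝ) := by exact_mod_cast h1
  linarith

end Pool.Agent.Results.MP_9caa86_co.QuadraticArea
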